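import Mathlib
import Pool.Agent.Helper58.EN.JX

/-!
Alternating maps in as many variables as the dimension, and the trace.
-/

set_option autoImplicit false

namespace Pool.Agent.Y117.CC

open Matrix Module

variable {K : Type} [Field K] {V : Type} [AddCommGroup V] [Module K V]

theorem det_updateCol_sum {ι : Type} [Fintype ι] [DecidableEq ι] (A T : Matrix ι ι K) :
    ∑ j, (A.updateCol j (fun i => (T * A) i j)).det = T.trace * A.det := by
  have h1 : ∀ j, (A.updateCol j (fun i => (T * A) i j)).det = (A.adjugate * (T * A)) j j := by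
    intro j
    rw [← Matrix.cramer_apply, Matrix.cramer_eq_adjugate_mulVec]
    rfl
  simp_rw [h1]
  change (A.adjugate * (T * A)).trace = _
  rw [Matrix.trace_mul_comm, Matrix.mul_assoc, Matrix.mul_adjugate, Matrix.mul_smul,
    Matrix.mul_one, Matrix.trace_smul, smul_eq_mul, mul_comm]

theorem alt_trace {ι : Type} [Fintype ι] [DecidableEq ι] (e : Basis ι K V)
    (f : V [⋀^ι]→ₗ[K] K) (T : V →ₗ[K] V) (v : ι → V) :
    ∑ i, f (Function.update v i (T (v i))) = LinearMap.trace K V T * f v := by
  have h0 : ∀ w : ι → V, f w = f e * e.det w := by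
    intro w
    conv_lhs => rw [AlternatingMap.eq_smul_basis_det e f]
    rfl
  rw [h0 v, Finset.sum_congr rfl fun i _ => h0 (Function.update v i (T (v i)))]
  rw [← Finset.mul_sum]
  have h1 : ∀ i, e.det (Function.update v i (T (v i))) =
      ((e.toMatrix v).updateCol i (fun a => (LinearMap.toMatrix e e T * e.toMatrix v) a i)).det := by
    intro i
    rw [Basis.det_apply, Basis.toMatrix_update]
    congr 2
    funext a
    have h2 := congrFun (LinearMap.toMatrix_mulVec_repr e e T (v i)) a
    rw [← h2]
    rfl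
  simp_rw [h1]
  rw [det_updateCol_sum, LinearMap.trace_eq_matrix_trace K e, Basis.det_apply]
  ring

/-- The basis of matrix units. -/
noncomputable def stdB (K : Type) [Field K] {k m : ℕ} (ε : Fin (m + 1) ≃ Fin k × Fin k) :
    Basis (Fin (m + 1)) K (Matrix (Fin k) (Fin k) K) :=
  (Matrix.stdBasis K (Fin k) (Fin k)).reindex ε.symm

theorem trace_two {k : ℕ} (P Q : Matrix (Fin k) (Fin k) K) :
    LinearMap.trace K (Matrix (Fin k) (Fin k) K)
      ((LinearMap.mulLeft K P).comp (LinearMap.mulRight K Q)) = P.trace * Q.trace := by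
  rw [LinearMap.trace_eq_matrix_trace K (Matrix.stdBasis K (Fin k) (Fin k)), Matrix.trace,
    Fintype.sum_prod_type]
  have h1 : ∀ a b : Fin k, Matrix.diag (LinearMap.toMatrix (Matrix.stdBasis K (Fin k) (Fin k))
      (Matrix.stdBasis K (Fin k) (Fin k))
      ((LinearMap.mulLeft K P).comp (LinearMap.mulRight K Q))) (a, b) = P a a * Q b b := by
    intro a b
    rw [Matrix.diag_apply, LinearMap.toMatrix_apply]
    rw [LinearMap.comp_apply, LinearMap.mulRight_apply, LinearMap.mulLeft_apply]
    rw [Matrix.stdBasis_eq_single]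
    have h2 : ∀ N : Matrix (Fin k) (Fin k) K,
        (Matrix.stdBasis K (Fin k) (Fin k)).repr N (a, b) = N a b := by
      intro N
      simp [Matrix.stdBasis]
    rw [h2, ← Matrix.mul_assoc, Matrix.mul_apply, Finset.sum_eq_single b]
    · rw [Matrix.mul_single_apply_same, mul_one]
    · intro c _ hc
      rw [Matrix.mul_single_apply_of_ne _ _ _ _ _ hc, zero_mul]
    · intro h
      exact absurd (Finset.mem_univ _) h
  simp_rw [h1]
  rw [Matrix.trace, Matrix.trace, Finset.sum_mul_sum]
  rfl

/-- the matrix valued version -/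
theorem alt_traceM {k m : ℕ} (ε : Fin (m + 1) ≃ Fin k × Fin k)
    (f : (Matrix (Fin k) (Fin k) K) [⋀^Fin (m + 1)]→ₗ[K] (Matrix (Fin k) (Fin k) K))
    (z : Matrix (Fin k) (Fin k) K) (v : Fin (m + 1) → Matrix (Fin k) (Fin k) K) :
    ∑ i, f (Function.update v i (z * v i)) = ((k : K) * z.trace) • f v := by
  ext a b
  have h1 := alt_trace (stdB K ε) ((Matrix.entryLinearMap K K a b).compAlternatingMap f)
    ((LinearMap.mulLeft K z).comp (LinearMap.mulRight K 1)) v
  rw [trace_two, Matrix.trace_one, Fintype.card_fin] at h1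
  simp only [LinearMap.compAlternatingMap_apply, Matrix.entryLinearMap_apply, LinearMap.comp_apply,
    LinearMap.mulRight_apply, LinearMap.mulLeft_apply, mul_one] at h1
  rw [Matrix.sum_apply, h1, Matrix.smul_apply, smul_eq_mul, mul_comm z.trace]

end Pool.Agent.Y117.CC
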