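import Mathlib
import Pool.Agent.Y117.CC.Alt

/-!
Multilinear noncommutative polynomial functions on matrices, substitution, absorption of traces.
-/

set_option autoImplicit false

namespace Pool.Agent.Y117.CC

open Matrix Module

/-- matrices -/
abbrev Mt (K : Type) (k : ℕ) := Matrix (Fin k) (Fin k) K

variable {K : Type} [Field K] {k m : ℕ} {κ : Type} [DecidableEq κ]

/-- the value of a word -/
def mon (l : List κ) (X : κ → Mt K k) : Mt K k := (l.map X).prod

/-- The span of the words with a given multiset of letters. -/
def Pol (K : Type) [Field K] (k : ℕ) (s : Multiset κ) : Submodule K ((κ → Mt K k) → Mt K k) :=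
  Submodule.span K {f | ∃ l : List κ, (l : Multiset κ) = s ∧ f = mon l}

omit [DecidableEq κ] in
theorem mon_append (l l' : List κ) (X : κ → Mt K k) : mon (l ++ l') X = mon l X * mon l' X := by
  simp [mon]

omit [DecidableEq κ] in
theorem mon_mem {l : List κ} {s : Multiset κ} (h : (l : Multiset κ) = s) :
    (fun X => mon l X) ∈ Pol K k s :=
  Submodule.subset_span ⟨l, h, rfl⟩

omit [DecidableEq κ] in
theorem Pol.mul {s t : Multiset κ} {f g : (κ → Mt K k) → Mt K k} (hf : f ∈ Pol K k s)
    (hg : g ∈ Pol K k t) : (fun X => f X * g X) ∈ Pol K k (s + t) := by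
  induction hf using Submodule.span_induction with
  | mem f hf =>
    obtain ⟨l, hl, rfl⟩ := hf
    induction hg using Submodule.span_induction with
    | mem g hg =>
      obtain ⟨l', hl', rfl⟩ := hg
      refine Submodule.subset_span ⟨l ++ l', ?_, ?_⟩
      · rw [← hl, ← hl', Multiset.coe_add]
      · funext X
        rw [mon_append]
    | zero =>
      have : (fun X : κ → Mt K k => mon l X * (0 : (κ → Mt K k) → Mt K k) X) = 0 := by
        funext X; simp
      rw [this]
      exact Submodule.zero_mem _
    | add a b _ _ ha hb =>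
      have : (fun X : κ → Mt K k => mon l X * (a + b) X) =
          (fun X => mon l X * a X) + (fun X => mon l X * b X) := by
        funext X; simp [mul_add]
      rw [this]
      exact Submodule.add_mem _ ha hb
    | smul c a _ ha =>
      have : (fun X : κ → Mt K k => mon l X * (c • a) X) = c • (fun X => mon l X * a X) := by
        funext X; simp
      rw [this]
      exact Submodule.smul_mem _ _ ha
  | zero =>
    have : (fun X : κ → Mt K k => (0 : (κ → Mt K k) → Mt K k) X * g X) = 0 := by
      funext X; simp
    rw [this]
    exact Submodule.zero_mem _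
  | add a b _ _ ha hb =>
    have : (fun X : κ → Mt K k => (a + b) X * g X) = (fun X => a X * g X) + (fun X => b X * g X) := by
      funext X; simp [add_mul]
    rw [this]
    exact Submodule.add_mem _ ha hb
  | smul c a _ ha =>
    have : (fun X : κ → Mt K k => (c • a) X * g X) = c • (fun X => a X * g X) := by
      funext X; simp
    rw [this]
    exact Submodule.smul_mem _ _ ha

theorem mon_update {l : List κ} {a : κ} (h : a ∉ l) (X : κ → Mt K k) (w : Mt K k) :
    mon l (Function.update X a w) = mon l X := by
  unfold mon
  congr 1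
  refine List.map_congr_left fun b hb => Function.update_of_ne ?_ _ _
  rintro rfl
  exact h hb

theorem Pol.subst {s t : Multiset κ} {a : κ} (ha : a ∉ s) (l : List κ) (ht : s + (l : Multiset κ) = t)
    {f : (κ → Mt K k) → Mt K k} (hf : f ∈ Pol K k (a ::ₘ s)) :
    (fun X => f (Function.update X a (mon l X))) ∈ Pol K k t := by
  subst ht
  induction hf using Submodule.span_induction with
  | mem f hf =>
    obtain ⟨l', hl', rfl⟩ := hf
    have h1 : a ∈ l' := by
      rw [← Multiset.mem_coe, hl']
      exact Multiset.mem_cons_self _ _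
    obtain ⟨l1, l2, rfl⟩ := List.append_of_mem h1
    have h2 : s = ((l1 ++ l2 : List κ) : Multiset κ) := by
      have h3 : ((l1 ++ a :: l2 : List κ) : Multiset κ) = a ::ₘ ((l1 ++ l2 : List κ) : Multiset κ) := by
        rw [Multiset.cons_coe, Multiset.coe_eq_coe]
        exact List.perm_middle
      rw [h3] at hl'
      exact ((Multiset.cons_inj_right a).1 hl').symm
    rw [h2, Multiset.mem_coe, List.mem_append, not_or] at ha
    refine Submodule.subset_span ⟨l1 ++ l ++ l2, ?_, ?_⟩
    · rw [h2, Multiset.coe_add, Multiset.coe_eq_coe]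
      rw [List.append_assoc, List.append_assoc]
      exact List.Perm.append_left _ List.perm_append_comm
    · funext X
      rw [mon_append, mon_append, mon_append]
      change _ * ((Function.update X a (mon l X) a) * mon l2 _) = _
      rw [mon_update ha.1, mon_update ha.2, Function.update_self, mul_assoc]
  | zero => exact Submodule.zero_mem _
  | add a b _ _ ha hb => exact Submodule.add_mem _ ha hb
  | smul c a _ ha => exact Submodule.smul_mem _ _ ha

/-- Alternation in the variables `x`, in infinitesimal form. -/
def AltX (x : Fin (m + 1) → κ) (h : (κ → Mt K k) → Mt K k) : Prop :=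
  ∀ (z : Mt K k) (X : κ → Mt K k),
    ∑ i, h (Function.update X (x i) (z * X (x i))) = ((k : K) * z.trace) • h X

theorem absorb [CharZero K] (hk : k ≠ 0) {x : Fin (m + 1) → κ} {s t : Multiset κ} (hc : ∀ i, s.count (x i) = 1)
    {h : (κ → Mt K k) → Mt K k} (hh : h ∈ Pol K k s) (hA : AltX x h) (l : List κ) (hl : ∀ i, x i ∉ l)
    (ht : s + (l : Multiset κ) = t) :
    (fun X => (mon l X).trace • h X) ∈ Pol K k t ∧ AltX x (fun X => (mon l X).trace • h X) := by
  subst ht
  constructor
  · have h1 : (fun X => (mon l X).trace • h X) =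
        ((k : K)⁻¹) • ∑ i, (fun X => h (Function.update X (x i) (mon (l ++ [x i]) X))) := by
      funext X
      rw [Pi.smul_apply, Finset.sum_apply]
      have h2 := hA (mon l X) X
      have h3 : ∀ i, mon (l ++ [x i]) X = mon l X * X (x i) := by
        intro i
        rw [mon_append]
        simp [mon]
      simp_rw [h3]
      rw [h2, smul_smul, ← mul_assoc, inv_mul_cancel₀ (by exact_mod_cast hk), one_mul]
    rw [h1]
    refine Submodule.smul_mem _ _ (Submodule.sum_mem _ fun i _ => ?_)
    have h4 : x i ∈ s := by
      rw [← Multiset.count_pos, hc]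
      exact one_pos
    refine Pol.subst (s := s.erase (x i)) ?_ _ ?_ ?_
    · rw [← Multiset.count_eq_zero, Multiset.count_erase_self, hc]
    · rw [← Multiset.coe_add, ← Multiset.cons_erase h4]
      rw [Multiset.erase_cons_head, Multiset.coe_singleton, ← Multiset.singleton_add]
      abel
    · rw [Multiset.cons_erase h4]
      exact hh
  · intro z X
    simp_rw [mon_update (hl _)]
    rw [← Finset.smul_sum, hA z X, smul_comm]

theorem absorbs [CharZero K] (hk : k ≠ 0) {x : Fin (m + 1) → κ} (ws : List (List κ)) :
    ∀ {s t : Multiset κ} (_ : ∀ i, s.count (x i) = 1)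
    {h : (κ → Mt K k) → Mt K k} (_ : h ∈ Pol K k s) (_ : AltX x h) (_ : ∀ w ∈ ws, ∀ i, x i ∉ w)
    (_ : s + (ws.flatten : Multiset κ) = t),
    (fun X => (ws.map fun w => (mon w X).trace).prod • h X) ∈ Pol K k t := by
  induction ws with
  | nil =>
    intro s t _ h hh _ _ ht
    have : s = t := by
      rw [← ht]
      simp
    subst this
    simpa using hh
  | cons w ws ih =>
    intro s t hc h hh hA hw ht
    obtain ⟨h1, h2⟩ := absorb hk hc hh hA w (hw w (List.mem_cons_self ..)) rfl
    have h3 := ih (s := s + (w : Multiset κ)) (t := t) (fun i => by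
      rw [Multiset.count_add, hc, Multiset.coe_count, List.count_eq_zero.2
        (hw w (List.mem_cons_self ..) i)]) h1 h2
      (fun w' hw' => hw w' (List.mem_cons_of_mem _ hw')) (by
        rw [← ht, List.flatten_cons, ← Multiset.coe_add, add_assoc])
    convert h3 using 2 with X
    rw [List.map_cons, List.prod_cons, mul_comm, mul_smul]

omit [DecidableEq κ] in
theorem coe_flatten (L : List (List κ)) :
    ((L.flatten : List κ) : Multiset κ) = (L.map Multiset.ofList).sum := by
  induction L with
  | nil => rfl
  | cons l L ih => rw [List.flatten_cons, ← Multiset.coe_add, ih, List.map_cons, List.sum_cons]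

omit [DecidableEq κ] in
theorem mon_flatten (L : List (List κ)) (X : κ → Mt K k) :
    mon L.flatten X = (L.map (fun l => mon l X)).prod := by
  induction L with
  | nil => simp [mon]
  | cons l L ih => rw [List.flatten_cons, mon_append, ih, List.map_cons, List.prod_cons]

/-- the Capelli polynomial -/
noncomputable def cap (x y : Fin (m + 1) → κ) (X : κ → Mt K k) : Mt K k :=
  Helper58.EN.rzCap (fun i => X (y i)) (fun i => X (x i))

omit [DecidableEq κ] in
theorem cap_mem (x y : Fin (m + 1) → κ) :
    (cap x y : (κ → Mt K k) → Mt K k) ∈ Pol K k (∑ i, ({x i} : Multiset κ) + ∑ i, ({y i} : Multiset κ)) := by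
  have h1 : (cap x y : (κ → Mt K k) → Mt K k) = ∑ σ : Equiv.Perm (Fin (m + 1)),
      ((Equiv.Perm.sign σ : ℤ) : K) • (fun X => mon (List.ofFn fun i => [x (σ i), y i]).flatten X) := by
    funext X
    rw [cap, Helper58.EN.rzCap_apply, Finset.sum_apply]
    refine Finset.sum_congr rfl fun σ _ => ?_
    rw [Pi.smul_apply, mon_flatten, List.map_ofFn, Int.cast_smul_eq_zsmul]
    congr 3
    funext i
    simp [mon]
  rw [h1]
  refine Submodule.sum_mem _ fun σ _ => Submodule.smul_mem _ _ (mon_mem ?_)
  rw [coe_flatten, List.map_ofFn, List.sum_ofFn]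
  have h2 : ∀ i, (Multiset.ofList ∘ fun i => [x (σ i), y i]) i =
      ({x (σ i)} : Multiset κ) + {y i} := fun i => rfl
  simp_rw [h2]
  rw [Finset.sum_add_distrib, Equiv.sum_comp σ (fun i => ({x i} : Multiset κ))]

theorem cap_alt (ε : Fin (m + 1) ≃ Fin k × Fin k) {x y : Fin (m + 1) → κ}
    (hx : Function.Injective x) (hxy : ∀ i j, x i ≠ y j) :
    AltX x (cap x y : (κ → Mt K k) → Mt K k) := by
  intro z X
  have h1 : ∀ i, cap x y (Function.update X (x i) (z * X (x i))) =
      Helper58.EN.rzCap (fun i => X (y i))
        (Function.update (fun i => X (x i)) i (z * (fun i => X (x i)) i)) := by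
    intro i
    unfold cap
    congr 2
    · funext j
      exact Function.update_of_ne (hxy i j).symm _ _
    · funext j
      by_cases h : j = i
      · subst h
        simp
      · rw [Function.update_of_ne h, Function.update_of_ne (fun h' => h (hx h'))]
  simp_rw [h1]
  exact alt_traceM ε _ z _

end Pool.Agent.Y117.CC
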