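import Mathlib
import Pool.Agent.Y117.CC.Pol

/-!
A scalar element which turns trace polynomials into polynomials.
-/

set_option autoImplicit false

namespace Pool.Agent.Y117.CC

open Matrix Module

variable {K : Type} [Field K] {k m : ℕ} {κ : Type} [DecidableEq κ]

/-- the functionals `u ↦ tr (u v_b)` -/
noncomputable def trL (v : Fin (m + 1) → Mt K k) : Mt K k →ₗ[K] (Fin (m + 1) → K) :=
  LinearMap.pi fun b => (Matrix.traceLinearMap (Fin k) K K).comp (LinearMap.mulRight K (v b))

theorem trL_apply (v : Fin (m + 1) → Mt K k) (u : Mt K k) (b : Fin (m + 1)) :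
    trL v u b = (u * v b).trace := rfl

/-- the Gram determinant -/
noncomputable def gram (u v : Fin (m + 1) → Mt K k) : K :=
  (Matrix.of fun a b => (u a * v b).trace).det

theorem gram_eq (u v : Fin (m + 1) → Mt K k) :
    gram u v = (Matrix.detRowAlternating.compLinearMap (trL v)) u := rfl

theorem gram_expand (u v : Fin (m + 1) → Mt K k) :
    gram u v = ∑ τ : Equiv.Perm (Fin (m + 1)), ((Equiv.Perm.sign τ : ℤ) : K) *
      ∏ a, (u a * v (τ a)).trace := by
  rw [gram, ← Matrix.det_transpose, Matrix.det_apply']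
  rfl

theorem dual_id (ε : Fin (m + 1) ≃ Fin k × Fin k) (u v : Fin (m + 1) → Mt K k) (A : Mt K k) :
    ∑ τ : Equiv.Perm (Fin (m + 1)), ((Equiv.Perm.sign τ : ℤ) : K) •
      ∑ i, (∏ a ∈ Finset.univ.erase i, (u a * v (τ a)).trace) • (u i * A * v (τ i)) =
      (gram u v * A.trace) • (1 : Mt K k) := by
  ext p s
  have h1 := alt_trace (stdB K ε) (Matrix.detRowAlternating.compLinearMap (trL v))
    ((LinearMap.mulLeft K (Matrix.single s p 1)).comp (LinearMap.mulRight K A)) u
  rw [trace_two, ← gram_eq] at h1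
  simp_rw [← gram_eq, gram_expand] at h1
  have h2 : ∀ i (τ : Equiv.Perm (Fin (m + 1))),
      ∏ a, (Function.update u i (((LinearMap.mulLeft K (Matrix.single s p 1)).comp
        (LinearMap.mulRight K A)) (u i)) a * v (τ a)).trace =
      (∏ a ∈ Finset.univ.erase i, (u a * v (τ a)).trace) * (u i * A * v (τ i)) p s := by
    intro i τ
    rw [← Finset.prod_erase_mul _ _ (Finset.mem_univ i)]
    congr 1
    · refine Finset.prod_congr rfl fun a ha => ?_
      rw [Function.update_of_ne (Finset.ne_of_mem_erase ha)]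
    · rw [Function.update_self, LinearMap.comp_apply, LinearMap.mulRight_apply,
        LinearMap.mulLeft_apply, Matrix.mul_assoc, Matrix.trace_single_mul, one_smul]
  simp_rw [h2] at h1
  rw [Finset.sum_comm] at h1
  have h3 : (∑ τ : Equiv.Perm (Fin (m + 1)), ((Equiv.Perm.sign τ : ℤ) : K) •
      ∑ i, (∏ a ∈ Finset.univ.erase i, (u a * v (τ a)).trace) • (u i * A * v (τ i))) p s =
      ∑ τ : Equiv.Perm (Fin (m + 1)), ∑ i, ((Equiv.Perm.sign τ : ℤ) : K) *
        ((∏ a ∈ Finset.univ.erase i, (u a * v (τ a)).trace) * (u i * A * v (τ i)) p s) := by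
    rw [Matrix.sum_apply]
    refine Finset.sum_congr rfl fun τ _ => ?_
    rw [Matrix.smul_apply, Matrix.sum_apply, smul_eq_mul, Finset.mul_sum]
    refine Finset.sum_congr rfl fun i _ => ?_
    rw [Matrix.smul_apply, smul_eq_mul]
  rw [h3, h1, Matrix.smul_apply, smul_eq_mul, ← gram_expand]
  by_cases h : p = s
  · subst h
    rw [Matrix.one_apply_eq, Matrix.trace_single_eq_same]
    ring
  · rw [Matrix.one_apply_ne h, Matrix.trace_single_eq_of_ne _ _ _ (fun h' => h h'.symm)]
    ring

/-- The scalar element. -/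
noncomputable def cz (U : Fin 4 × Fin (m + 1) → Mt K k) : K :=
  gram (fun i => U (0, i)) (fun i => U (1, i)) *
    (Helper58.EN.rzCap (fun i => U (3, i)) (fun i => U (2, i))).trace

theorem cz_mem [CharZero K] (ε : Fin (m + 1) ≃ Fin k × Fin k) {e : Fin 4 × Fin (m + 1) → κ}
    (he : Function.Injective e) (ws : List (List κ)) (hws : ∀ w ∈ ws, ∀ p, e p ∉ w)
    {t : Multiset κ} (ht : ∑ p, ({e p} : Multiset κ) + (ws.flatten : Multiset κ) = t) :
    (fun X : κ → Mt K k => (cz (fun p => X (e p)) * (ws.map fun w => (mon w X).trace).prod) •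
      (1 : Mt K k)) ∈ Pol K k t := by
  have hk : k ≠ 0 := by
    rintro rfl
    exact (ε 0).1.elim0
  have h1 : (fun X : κ → Mt K k => (cz (fun p => X (e p)) *
      (ws.map fun w => (mon w X).trace).prod) • (1 : Mt K k)) =
      ∑ τ : Equiv.Perm (Fin (m + 1)), ((Equiv.Perm.sign τ : ℤ) : K) •
      ∑ i, (fun X : κ → Mt K k =>
        (((((Finset.univ.erase i).toList.map fun a => [e (0, a), e (1, τ a)]) ++ ws).map
          fun w => (mon w X).trace).prod) •
        (X (e (0, i)) * cap (fun i => e (2, i)) (fun i => e (3, i)) X * X (e (1, τ i)))) := by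
    funext X
    have h2 := dual_id ε (fun i => X (e (0, i))) (fun i => X (e (1, i)))
      (cap (fun i => e (2, i)) (fun i => e (3, i)) X)
    have h3 : cz (fun p => X (e p)) = gram (fun i => X (e (0, i))) (fun i => X (e (1, i))) *
      (cap (fun i => e (2, i)) (fun i => e (3, i)) X).trace := rfl
    rw [h3, mul_comm, mul_smul, ← h2, Finset.smul_sum, Finset.sum_apply]
    refine Finset.sum_congr rfl fun τ _ => ?_
    rw [Pi.smul_apply, Finset.sum_apply, smul_comm, Finset.smul_sum]
    congr 1
    refine Finset.sum_congr rfl fun i _ => ?_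
    rw [smul_smul]
    congr 1
    rw [List.map_append, List.prod_append, mul_comm, List.map_map]
    congr 1
    rw [← Finset.prod_map_toList]
    congr 1
    refine List.map_congr_left fun a _ => ?_
    simp [mon]
  rw [h1]
  refine Submodule.sum_mem _ fun τ _ => Submodule.smul_mem _ _ (Submodule.sum_mem _ fun i _ => ?_)
  have hne : ∀ (j l : Fin 4) (a b : Fin (m + 1)), j ≠ l → e (j, a) ≠ e (l, b) := by
    intro j l a b hjl h
    exact hjl (congrArg Prod.fst (he h))
  have hx : Function.Injective (fun i : Fin (m + 1) => e (2, i)) := by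
    intro a b h
    exact congrArg Prod.snd (he h)
  have hsum : ∀ (j : Fin 4) (a : Fin (m + 1)), j ≠ 2 →
      Multiset.count (e (2, a)) (∑ i, ({e (j, i)} : Multiset κ)) = 0 := by
    intro j a hj
    rw [Multiset.count_sum']
    refine Finset.sum_eq_zero fun i _ => ?_
    rw [Multiset.count_singleton, if_neg (hne 2 j a i hj.symm)]
  have hsum2 : ∀ a : Fin (m + 1),
      Multiset.count (e (2, a)) (∑ i, ({e (2, i)} : Multiset κ)) = 1 := by
    intro a
    rw [Multiset.count_sum', Finset.sum_eq_single a]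
    · exact Multiset.count_singleton_self _
    · intro b _ hb
      rw [Multiset.count_singleton, if_neg fun h => hb (hx h).symm]
    · intro h
      exact absurd (Finset.mem_univ _) h
  refine absorbs hk (x := fun i => e (2, i)) _
    (s := ({e (0, i)} : Multiset κ) + (∑ i, ({e (2, i)} : Multiset κ) + ∑ i, ({e (3, i)} : Multiset κ)) +
      ({e (1, τ i)} : Multiset κ)) ?_ ?_ ?_ ?_ ?_
  · intro a
    rw [Multiset.count_add, Multiset.count_add, Multiset.count_add, hsum2, hsum 3 a (by decide),
      Multiset.count_singleton, Multiset.count_singleton, if_neg (hne 2 0 _ _ (by decide)),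
      if_neg (hne 2 1 _ _ (by decide))]
  · refine Pol.mul (Pol.mul ?_ (cap_mem _ _)) ?_
    · have := mon_mem (K := K) (k := k) (l := [e (0, i)]) (s := {e (0, i)}) rfl
      simpa [mon] using this
    · have := mon_mem (K := K) (k := k) (l := [e (1, τ i)]) (s := {e (1, τ i)}) rfl
      simpa [mon] using this
  · intro z X
    have h4 := cap_alt ε hx (y := fun i => e (3, i)) (fun a b => hne 2 3 a b (by decide)) z X
    have h5 : ∀ a (w : Mt K k), Function.update X (e (2, a)) w (e (0, i)) = X (e (0, i)) :=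
      fun a w => Function.update_of_ne (hne 0 2 _ _ (by decide)) _ _
    have h6 : ∀ a (w : Mt K k), Function.update X (e (2, a)) w (e (1, τ i)) = X (e (1, τ i)) :=
      fun a w => Function.update_of_ne (hne 1 2 _ _ (by decide)) _ _
    simp_rw [h5, h6]
    rw [← Finset.sum_mul, ← Finset.mul_sum, h4, mul_smul_comm, smul_mul_assoc]
  · intro w hw a
    rw [List.mem_append] at hw
    rcases hw with hw | hw
    · rw [List.mem_map] at hw
      obtain ⟨b, _, rfl⟩ := hw
      simp only [List.mem_cons, List.not_mem_nil, or_false, not_or]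
      exact ⟨hne 2 0 _ _ (by decide), hne 2 1 _ _ (by decide)⟩
    · exact hws w hw _
  · rw [← ht, List.flatten_append, ← Multiset.coe_add, ← add_assoc, coe_flatten, List.map_map]
    congr 1
    have h7 : ((List.map (Multiset.ofList ∘ fun a => [e (0, a), e (1, τ a)])
        (Finset.univ.erase i).toList)).sum =
        ∑ a ∈ Finset.univ.erase i, (({e (0, a)} : Multiset κ) + {e (1, τ a)}) := by
      rw [← Finset.sum_map_toList]
      rfl
    rw [h7, Finset.sum_add_distrib]
    have h8 : ∑ p, ({e p} : Multiset κ) = ∑ a, {e (0, a)} + ∑ a, {e (1, a)} + ∑ a, {e (2, a)} +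
        ∑ a, {e (3, a)} := by
      rw [Fintype.sum_prod_type, Fin.sum_univ_four]
    rw [h8, ← Equiv.sum_comp τ (fun a => ({e (1, a)} : Multiset κ)),
      ← Finset.add_sum_erase _ (fun a => ({e (0, a)} : Multiset κ)) (Finset.mem_univ i),
      ← Finset.add_sum_erase _ (fun a => ({e (1, τ a)} : Multiset κ)) (Finset.mem_univ i)]
    abel

theorem exists_cz_ne [CharZero K] (ε : Fin (m + 1) ≃ Fin k × Fin k) :
    ∃ U : Fin 4 × Fin (m + 1) → Mt K k, cz U ≠ 0 := by
  obtain ⟨y, hy⟩ := Helper58.EN.rz_unit (K := K) ε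
  refine ⟨fun p => if p.1 = 0 then Matrix.single (ε p.2).1 (ε p.2).2 1 else
    if p.1 = 1 then Matrix.single (ε p.2).2 (ε p.2).1 1 else
    if p.1 = 2 then Matrix.single (ε p.2).1 (ε p.2).2 1 else y p.2, ?_⟩
  unfold cz
  refine mul_ne_zero ?_ ?_
  · have h1 : (Matrix.of fun a b : Fin (m + 1) =>
        ((Matrix.single (ε a).1 (ε a).2 1 : Mt K k) * Matrix.single (ε b).2 (ε b).1 1).trace) =
        (1 : Matrix (Fin (m + 1)) (Fin (m + 1)) K) := by
      ext a b
      rw [Matrix.of_apply, Matrix.trace_single_mul, one_smul]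
      by_cases h : a = b
      · subst h
        rw [Matrix.one_apply_eq, Matrix.single_apply_same]
      · rw [Matrix.one_apply_ne h]
        refine Matrix.single_apply_of_ne _ _ _ _ _ ?_
        rintro ⟨h2, h3⟩
        exact h (ε.injective (Prod.ext h3.symm h2.symm))
    simp only [gram, Fin.isValue, if_true, one_ne_zero, if_false]
    rw [h1, Matrix.det_one]
    exact one_ne_zero
  · have h2 : (2 : Fin 4) ≠ 0 := by decide
    have h3 : (2 : Fin 4) ≠ 1 := by decide
    have h4 : (3 : Fin 4) ≠ 0 := by decide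
    have h5 : (3 : Fin 4) ≠ 1 := by decide
    have h6 : (3 : Fin 4) ≠ 2 := by decide
    simp only [if_neg h2, if_neg h3, if_neg h4, if_neg h5, if_neg h6, if_true]
    exact hy

end Pool.Agent.Y117.CC
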