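import Mathlib
import Pool.Agent.Y117.CC.Cz

/-!
Trace functions of permutations are products of traces of words.
-/

set_option autoImplicit false

namespace Pool.Agent.Y117.CC

open Matrix Module

/-- The trace function of a permutation. -/
def trp {ι : Type} [Fintype ι] [DecidableEq ι] {K : Type} [Field K] {k : ℕ} (π : Equiv.Perm ι)
    (Y : ι → Mt K k) : K :=
  ∑ p : ι → Fin k, ∏ i, Y i (p i) (p (π i))

theorem trp_congr {α β : Type} [Fintype α] [Fintype β] [DecidableEq α] [DecidableEq β] {K : Type} [Field K] {k : ℕ} (e : α ≃ β)
    (π : Equiv.Perm β) (Y : β → Mt K k) :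
    trp π Y = trp (e.permCongr.symm π) (fun i => Y (e i)) := by
  unfold trp
  rw [← Equiv.sum_comp (Equiv.arrowCongr e (Equiv.refl (Fin k)))]
  refine Finset.sum_congr rfl fun p _ => ?_
  rw [← Equiv.prod_comp e]
  refine Finset.prod_congr rfl fun i _ => ?_
  simp [Equiv.arrowCongr]

theorem trp_words_aux {κ : Type} (ι : Type) [Fintype ι] : ∀ [DecidableEq ι] (π : Equiv.Perm ι)
    (w : ι → List κ),
    ∃ ws : List (List κ), (ws.flatten : Multiset κ) = ∑ i, (w i : Multiset κ) ∧
      ∀ (K : Type) [Field K] (k : ℕ) (X : κ → Mt K k),
        trp π (fun i => mon (w i) X) = (ws.map fun v => (mon v X).trace).prod := by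
  refine Fintype.induction_empty_option (P := fun (ι : Type) [Fintype ι] =>
    ∀ [DecidableEq ι] (π : Equiv.Perm ι) (w : ι → List κ),
    ∃ ws : List (List κ), (ws.flatten : Multiset κ) = ∑ i, (w i : Multiset κ) ∧
      ∀ (K : Type) [Field K] (k : ℕ) (X : κ → Mt K k),
        trp π (fun i => mon (w i) X) = (ws.map fun v => (mon v X).trace).prod) ?_ ?_ ?_ ι
  · intro α β _ e ih _ π w
    classical
    let := Fintype.ofEquiv β e.symm
    obtain ⟨ws, h1, h2⟩ := ih (e.permCongr.symm π) (fun i => w (e i))
    refine ⟨ws, ?_, ?_⟩
    · rw [h1]
      exact Equiv.sum_comp e (fun i => (w i : Multiset κ))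
    · intro K _ k X
      rw [trp_congr e]
      exact h2 K k X
  · intro _ π w
    refine ⟨[], ?_, ?_⟩
    · simp
    · intro K _ k X
      simp [trp]
  · intro α _ ih _ π w
    classical
    by_cases hn : π none = none
    · -- fixed point
      have h1 : ∀ x : α, some (Equiv.removeNone π x) = π (some x) := by
        intro x
        refine Equiv.removeNone_some π ?_
        rcases h : π (some x) with _ | y
        · exact absurd (π.injective (hn.trans h.symm)) (by simp)
        · exact ⟨y, rfl⟩
      obtain ⟨ws, h2, h3⟩ := ih (Equiv.removeNone π) (fun a => w (some a))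
      refine ⟨w none :: ws, ?_, ?_⟩
      · rw [List.flatten_cons, ← Multiset.coe_add, h2, Fintype.sum_option]
      · intro K _ k X
        rw [List.map_cons, List.prod_cons, ← h3 K k X]
        unfold trp
        rw [← Equiv.sum_comp (Equiv.piOptionEquivProd (β := fun _ => Fin k)).symm,
          Fintype.sum_prod_type, Matrix.trace, Finset.sum_mul]
        refine Finset.sum_congr rfl fun r _ => ?_
        rw [Finset.mul_sum]
        refine Finset.sum_congr rfl fun p _ => ?_
        rw [Fintype.prod_option, hn]
        congr 1
        refine Finset.prod_congr rfl fun a _ => ?_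
        rw [← h1 a]
        rfl
    · obtain ⟨b, hb⟩ := Option.ne_none_iff_exists'.1 hn
      have hs : π.symm none ≠ none := by
        intro h
        apply hn
        rw [← h, Equiv.apply_symm_apply, h]
      obtain ⟨a0, ha0⟩ := Option.ne_none_iff_exists'.1 hs
      have ha : π (some a0) = none := by
        rw [← ha0, Equiv.apply_symm_apply]
      have h0 : Equiv.removeNone π a0 = b := by
        have := Equiv.removeNone_none π ha
        rw [hb] at this
        exact Option.some.inj this
      have h1 : ∀ x : α, x ≠ a0 → some (Equiv.removeNone π x) = π (some x) := by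
        intro x hx
        refine Equiv.removeNone_some π ?_
        rcases h : π (some x) with _ | y
        · exact absurd (Option.some.inj (π.injective (h.trans ha.symm))) hx
        · exact ⟨y, rfl⟩
      obtain ⟨ws, h2, h3⟩ := ih (Equiv.removeNone π)
        (Function.update (fun a => w (some a)) a0 (w (some a0) ++ w none))
      refine ⟨ws, ?_, ?_⟩
      · rw [h2, Fintype.sum_option, ← Finset.add_sum_erase _ _ (Finset.mem_univ a0),
          ← Finset.add_sum_erase _ (fun a => (w (some a) : Multiset κ)) (Finset.mem_univ a0),
          Function.update_self, ← Multiset.coe_add, ← add_assoc, add_comm (w none : Multiset κ)]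
        congr 1
        refine Finset.sum_congr rfl fun a ha' => ?_
        rw [Function.update_of_ne (Finset.ne_of_mem_erase ha')]
      · intro K _ k X
        rw [← h3 K k X]
        unfold trp
        rw [← Equiv.sum_comp (Equiv.piOptionEquivProd (β := fun _ => Fin k)).symm,
          Fintype.sum_prod_type, Finset.sum_comm]
        refine Finset.sum_congr rfl fun p _ => ?_
        rw [← Finset.mul_prod_erase _ _ (Finset.mem_univ a0)]
        beta_reduce
        rw [Function.update_self, h0,
          mon_append, Matrix.mul_apply, Finset.sum_mul]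
        refine Finset.sum_congr rfl fun r _ => ?_
        rw [Fintype.prod_option, ← Finset.mul_prod_erase _ _ (Finset.mem_univ a0), hb, ha]
        beta_reduce
        have h4 : ∏ a ∈ Finset.univ.erase a0, mon (w (some a)) X
            ((Equiv.piOptionEquivProd (β := fun _ => Fin k)).symm (r, p) (some a))
            ((Equiv.piOptionEquivProd (β := fun _ => Fin k)).symm (r, p) (π (some a))) =
            ∏ a ∈ Finset.univ.erase a0,
              mon (Function.update (fun a => w (some a)) a0 (w (some a0) ++ w none) a) X (p a)
                (p (Equiv.removeNone π a)) := by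
          refine Finset.prod_congr rfl fun a ha' => ?_
          rw [Function.update_of_ne (Finset.ne_of_mem_erase ha'),
            ← h1 a (Finset.ne_of_mem_erase ha')]
          rfl
        rw [← h4]
        simp only [Equiv.piOptionEquivProd_symm_apply]
        ring

theorem trp_words {κ ι : Type} [Fintype ι] [DecidableEq ι] (π : Equiv.Perm ι) (w : ι → List κ) :
    ∃ ws : List (List κ), (ws.flatten : Multiset κ) = ∑ i, (w i : Multiset κ) ∧
      ∀ (K : Type) [Field K] (k : ℕ) (X : κ → Mt K k),
        trp π (fun i => mon (w i) X) = (ws.map fun v => (mon v X).trace).prod :=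
  trp_words_aux ι π w

end Pool.Agent.Y117.CC
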