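import Mathlib
import Pool.Agent.Y117.CC.Trp

/-!
The scalar element and trace polynomials on matrix units.
-/

set_option autoImplicit false

namespace Pool.Agent.Y117.CC

open Matrix Module

variable {K : Type} [Field K] {k : ℕ}

theorem list_perm {n : ℕ} {l : List (Fin n)} (h : (l : Multiset (Fin n)) = Finset.univ.val) :
    ∃ s : Equiv.Perm (Fin n), l = List.ofFn s := by
  have hlen : l.length = n := by
    have := congrArg Multiset.card h
    simpa using this
  have hnd : l.Nodup := by
    rw [← Multiset.coe_nodup, h]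
    exact Finset.univ.nodup
  have hinj : Function.Injective (fun i : Fin n => l.get (Fin.cast hlen.symm i)) := by
    intro i j hij
    have := (List.nodup_iff_injective_get.1 hnd) hij
    simpa using this
  refine ⟨Equiv.ofBijective _ (Finite.injective_iff_bijective.1 hinj), ?_⟩
  apply List.ext_get
  · simp [hlen]
  · intro i h1 h2
    simp

theorem ofFn_content {n : ℕ} (s : Equiv.Perm (Fin n)) :
    ((List.ofFn s : List (Fin n)) : Multiset (Fin n)) = Finset.univ.val := by
  have h1 : (List.ofFn s).Nodup := by
    rw [List.nodup_ofFn]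
    exact s.injective
  have h2 : ∀ a, a ∈ List.ofFn s := by
    intro a
    rw [List.mem_ofFn]
    exact ⟨s.symm a, by simp⟩
  have h3 := (Multiset.Nodup.ext (Multiset.coe_nodup.2 h1) Finset.univ.nodup).2
  exact h3 fun a => ⟨fun _ => Finset.mem_univ a, fun _ => Multiset.mem_coe.2 (h2 a)⟩

/-- The value at matrix units. -/
def un (K : Type) [Field K] {ι : Type} (a b : ι → Fin k) : ι → Mt K k :=
  fun i => Matrix.single (a i) (b i) 1

theorem trp_un {ι : Type} [Fintype ι] [DecidableEq ι] (γ : Equiv.Perm ι) (a b : ι → Fin k) :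
    trp γ (un K a b) = ∏ i, if b i = a (γ i) then (1 : K) else 0 := by
  unfold trp un
  rw [Finset.sum_eq_single a]
  · refine Finset.prod_congr rfl fun i _ => ?_
    rw [Matrix.single_apply]
    simp
  · intro p _ hp
    obtain ⟨i, hi⟩ := Function.ne_iff.1 hp
    refine Finset.prod_eq_zero (Finset.mem_univ i) ?_
    rw [Matrix.single_apply, if_neg]
    rintro ⟨h, _⟩
    exact hi h.symm
  · intro h
    exact absurd (Finset.mem_univ _) h

theorem trp_expand {ι : Type} [Fintype ι] [DecidableEq ι] (γ : Equiv.Perm ι) (X : ι → Mt K k) :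
    trp γ X = ∑ a : ι → Fin k, ∑ b : ι → Fin k, (∏ i, X i (a i) (b i)) * trp γ (un K a b) := by
  rw [trp]
  refine Finset.sum_congr rfl fun a _ => ?_
  rw [Finset.sum_eq_single (fun i => a (γ i))]
  · rw [trp_un]
    simp
  · intro b _ hb
    obtain ⟨i, hi⟩ := Function.ne_iff.1 hb
    rw [trp_un, Finset.prod_eq_zero (i := i) (f := fun i => if b i = a (γ i) then (1 : K) else 0)
      (Finset.mem_univ i) (if_neg hi), mul_zero]
  · intro h
    exact absurd (Finset.mem_univ _) h

theorem prod_path (n : ℕ) : ∀ (A : Fin n → Mt K k) (a b : Fin k), (List.ofFn A).prod a b =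
    ∑ p : Fin (n + 1) → Fin k, if p 0 = a ∧ p (Fin.last n) = b then
      ∏ i, A i (p i.castSucc) (p i.succ) else 0 := by
  induction n with
  | zero =>
    intro A a b
    rw [← Equiv.sum_comp (Equiv.funUnique (Fin 1) (Fin k)).symm]
    simp only [List.ofFn_zero, List.prod_nil, Fin.last_zero, Finset.univ_eq_empty,
      Finset.prod_empty]
    by_cases h : a = b
    · subst h
      rw [Matrix.one_apply_eq, Finset.sum_eq_single a]
      · simp
      · intro c _ hc
        rw [if_neg]
        rintro ⟨h1, _⟩
        exact hc h1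
      · simp
    · rw [Matrix.one_apply_ne h]
      symm
      refine Finset.sum_eq_zero fun c _ => ?_
      rw [if_neg]
      rintro ⟨h1, h2⟩
      exact h (h1.symm.trans h2)
  | succ n ih =>
    intro A a b
    rw [List.ofFn_succ, List.prod_cons, Matrix.mul_apply]
    simp_rw [ih]
    rw [← Equiv.sum_comp (Fin.consEquiv (fun _ : Fin (n + 2) => Fin k)), Fintype.sum_prod_type]
    have hR : ∀ r : Fin k, r ≠ a → (∑ p : Fin (n + 1) → Fin k,
        if (Fin.cons r p : Fin (n + 2) → Fin k) 0 = a ∧
          (Fin.cons r p : Fin (n + 2) → Fin k) (Fin.last (n + 1)) = b then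
          ∏ i : Fin (n + 1), A i ((Fin.cons r p : Fin (n + 2) → Fin k) i.castSucc)
            ((Fin.cons r p : Fin (n + 2) → Fin k) i.succ) else 0) = 0 := by
      intro c hc
      refine Finset.sum_eq_zero fun p _ => ?_
      rw [if_neg]
      rintro ⟨h1, _⟩
      exact hc h1
    have hR2 := Finset.sum_eq_single (s := Finset.univ) a (fun r _ hr => hR r hr)
      (fun h => absurd (Finset.mem_univ _) h)
    refine Eq.trans ?_ hR2.symm
    simp_rw [Finset.mul_sum]
    rw [Finset.sum_comm]
    refine Finset.sum_congr rfl fun p _ => ?_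
    rw [Finset.sum_eq_single (p 0)]
    · have h1 : (Fin.cons a p : Fin (n + 2) → Fin k) (Fin.last (n + 1)) = p (Fin.last n) := by
        rw [← Fin.succ_last, Fin.cons_succ]
      rw [h1, Fin.cons_zero]
      by_cases h : p (Fin.last n) = b
      · rw [if_pos ⟨rfl, h⟩, if_pos ⟨rfl, h⟩, Fin.prod_univ_succ]
        rfl
      · rw [if_neg (fun h' => h h'.2), if_neg (fun h' => h h'.2), mul_zero]
    · intro c _ hc
      rw [if_neg, mul_zero]
      rintro ⟨h1, _⟩
      exact hc h1.symm
    · intro h
      exact absurd (Finset.mem_univ _) h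

theorem trace_cycle (n : ℕ) (A : Fin (n + 1) → Mt K k) :
    (List.ofFn A).prod.trace = trp (finRotate (n + 1)) A := by
  rw [Matrix.trace]
  simp_rw [Matrix.diag_apply, prod_path]
  rw [Finset.sum_comm, ← Equiv.sum_comp (Fin.snocEquiv (fun _ : Fin (n + 2) => Fin k)),
    Fintype.sum_prod_type, Finset.sum_comm, trp]
  refine Finset.sum_congr rfl fun p _ => ?_
  rw [Finset.sum_eq_single (p 0)]
  · rw [Finset.sum_eq_single (p 0)]
    · rw [if_pos]
      · refine Finset.prod_congr rfl fun i _ => ?_
        congr 1
        · simp [Fin.snocEquiv]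
        · induction i using Fin.lastCases with
          | last => simp [Fin.snocEquiv]
          | cast i =>
            have h1 : (Fin.snoc p (p 0) : Fin (n + 2) → Fin k) i.castSucc.succ = p i.succ :=
              Fin.snoc_castSucc (α := fun _ => Fin k) (p 0) p i.succ
            simpa [Fin.snocEquiv] using h1
      · constructor
        · have : (0 : Fin (n + 2)) = Fin.castSucc 0 := rfl
          rw [this]
          simp [Fin.snocEquiv]
        · simp [Fin.snocEquiv]
    · intro c _ hc
      rw [if_neg]
      rintro ⟨h1, _⟩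
      apply hc
      have : (0 : Fin (n + 2)) = Fin.castSucc 0 := rfl
      rw [this] at h1
      simpa [Fin.snocEquiv] using h1.symm
    · intro h
      exact absurd (Finset.mem_univ _) h
  · intro r _ hr
    refine Finset.sum_eq_zero fun c _ => ?_
    rw [if_neg]
    rintro ⟨h1, h2⟩
    apply hr
    have h3 : (0 : Fin (n + 2)) = Fin.castSucc 0 := rfl
    rw [h3] at h1
    have h4 : p 0 = c := by simpa [Fin.snocEquiv] using h1
    have h5 : r = c := by simpa [Fin.snocEquiv] using h2
    rw [h4, h5]
  · intro h
    exact absurd (Finset.mem_univ _) h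

theorem trace_word {n : ℕ} (s : Equiv.Perm (Fin (n + 1))) :
    ∃ γ : Equiv.Perm (Fin (n + 1)), ∀ X : Fin (n + 1) → Mt K k,
      (List.ofFn fun i => X (s i)).prod.trace = trp γ X := by
  refine ⟨s.permCongr (finRotate (n + 1)), fun X => ?_⟩
  rw [trace_cycle, trp_congr s (s.permCongr (finRotate (n + 1))) X, Equiv.symm_apply_apply]

end Pool.Agent.Y117.CC
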