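import Mathlib
import Pool.Agent.Y117.CC.Cor

/-!
The conductor: products of the scalar element with trace polynomials are polynomials, on matrix
units.
-/

set_option autoImplicit false

namespace Pool.Agent.Y117.CC

open Matrix Module Finset

variable {K : Type} [Field K] {k : ℕ}

/-- The span of the noncommutative monomials on matrix units. -/
def WW (K : Type) [Field K] (k n : ℕ) :
    Submodule K ((Fin n → Fin k) → (Fin n → Fin k) → Fin k → Fin k → K) :=
  Submodule.span K (Set.range fun s : Equiv.Perm (Fin n) => fun a b p q =>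
    ((List.ofFn fun i => Matrix.single (a (s i)) (b (s i)) (1 : K)).prod) p q)

theorem ev_mem {n : ℕ} {F : (Fin n → Mt K k) → Mt K k} (hF : F ∈ Pol K k univ.val) :
    (fun a b p q => F (un K a b) p q) ∈ WW K k n := by
  induction hF using Submodule.span_induction with
  | mem F hF =>
    obtain ⟨l, hl, rfl⟩ := hF
    obtain ⟨s, rfl⟩ := list_perm hl
    refine Submodule.subset_span ⟨s, ?_⟩
    funext a b p q
    rw [mon, List.map_ofFn]
    rfl
  | zero => exact Submodule.zero_mem _
  | add a b _ _ ha hb => exact Submodule.add_mem _ ha hb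
  | smul c a _ ha => exact Submodule.smul_mem _ _ ha

theorem tr_mem {n : ℕ} {F : (Fin (n + 1) → Mt K k) → Mt K k} (hF : F ∈ Pol K k univ.val) :
    (fun X => (F X).trace) ∈ Submodule.span K
      (Set.range fun γ : Equiv.Perm (Fin (n + 1)) => fun X : Fin (n + 1) → Mt K k => trp γ X) := by
  induction hF using Submodule.span_induction with
  | mem F hF =>
    obtain ⟨l, hl, rfl⟩ := hF
    obtain ⟨s, rfl⟩ := list_perm hl
    obtain ⟨γ, hγ⟩ := trace_word (K := K) (k := k) s
    refine Submodule.subset_span ⟨γ, ?_⟩
    funext X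
    rw [mon, List.map_ofFn]
    exact (hγ X).symm
  | zero =>
    have : (fun X : Fin (n + 1) → Mt K k => ((0 : (Fin (n + 1) → Mt K k) → Mt K k) X).trace) = 0 := by
      funext X
      simp
    rw [this]
    exact Submodule.zero_mem _
  | add a b _ _ ha hb =>
    have : (fun X : Fin (n + 1) → Mt K k => ((a + b) X).trace) =
        (fun X => (a X).trace) + (fun X => (b X).trace) := by
      funext X
      simp [Matrix.trace_add]
    rw [this]
    exact Submodule.add_mem _ ha hb
  | smul c a _ ha =>
    have : (fun X : Fin (n + 1) → Mt K k => ((c • a) X).trace) = c • (fun X => (a X).trace) := by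
      funext X
      simp [Matrix.trace_smul]
    rw [this]
    exact Submodule.smul_mem _ _ ha

variable {m : ℕ}

/-- numbering of the letters of the scalar element -/
def tht (m : ℕ) : Fin 4 × Fin (m + 1) ≃ Fin (4 * m + 3 + 1) :=
  finProdFinEquiv.trans (finCongr (by ring))

/-- The values of the scalar element on matrix units. -/
noncomputable def gg (K : Type) [Field K] (k m : ℕ) (a b : Fin (4 * m + 3 + 1) → Fin k) : K :=
  cz (m := m) (fun p => un K a b (tht m p))

theorem cz_span [CharZero K] (ε : Fin (m + 1) ≃ Fin k × Fin k) :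
    (fun X : Fin (4 * m + 3 + 1) → Mt K k => cz (m := m) (fun p => X (tht m p))) ∈
      Submodule.span K (Set.range fun γ : Equiv.Perm (Fin (4 * m + 3 + 1)) =>
        fun X : Fin (4 * m + 3 + 1) → Mt K k => trp γ X) := by
  have hk : (k : K) ≠ 0 := by
    have : k ≠ 0 := by
      rintro rfl
      exact (ε 0).1.elim0
    exact_mod_cast this
  have h1 := cz_mem (K := K) (κ := Fin (4 * m + 3 + 1)) ε (e := tht m) (tht m).injective []
    (by simp) (t := univ.val) (by
      rw [Equiv.sum_comp (tht m) (fun j => ({j} : Multiset (Fin (4 * m + 3 + 1))))]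
      simp [Finset.sum_multiset_singleton])
  have h2 := tr_mem h1
  have h3 : (fun X : Fin (4 * m + 3 + 1) → Mt K k => cz (m := m) (fun p => X (tht m p))) =
      (k : K)⁻¹ • (fun X : Fin (4 * m + 3 + 1) → Mt K k => ((cz (m := m) (fun p => X (tht m p)) *
        (([] : List (List (Fin (4 * m + 3 + 1)))).map fun w => (mon w X).trace).prod) •
          (1 : Mt K k)).trace) := by
    funext X
    rw [Pi.smul_apply, Matrix.trace_smul, Matrix.trace_one, Fintype.card_fin, smul_eq_mul,
      smul_eq_mul, List.map_nil, List.prod_nil]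
    field_simp
  rw [h3]
  exact Submodule.smul_mem _ _ h2

theorem gg_span [CharZero K] (ε : Fin (m + 1) ≃ Fin k × Fin k) :
    gg K k m ∈ Submodule.span K (Set.range fun γ : Equiv.Perm (Fin (4 * m + 3 + 1)) =>
        fun (a b : Fin (4 * m + 3 + 1) → Fin k) => ∏ i, if b i = a (γ i) then (1 : K) else 0) := by
  have h1 := cz_span (K := K) ε
  have h2 : ∀ F ∈ Submodule.span K (Set.range fun γ : Equiv.Perm (Fin (4 * m + 3 + 1)) =>
        fun X : Fin (4 * m + 3 + 1) → Mt K k => trp γ X),
      (fun (a b : Fin (4 * m + 3 + 1) → Fin k) => F (un K a b)) ∈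
      Submodule.span K (Set.range fun γ : Equiv.Perm (Fin (4 * m + 3 + 1)) =>
        fun (a b : Fin (4 * m + 3 + 1) → Fin k) => ∏ i, if b i = a (γ i) then (1 : K) else 0) := by
    intro F hF
    induction hF using Submodule.span_induction with
    | mem F hF =>
      obtain ⟨γ, rfl⟩ := hF
      refine Submodule.subset_span ⟨γ, ?_⟩
      funext a b
      exact (trp_un γ a b).symm
    | zero => exact Submodule.zero_mem _
    | add a b _ _ ha hb => exact Submodule.add_mem _ ha hb
    | smul c a _ ha => exact Submodule.smul_mem _ _ ha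
  exact h2 _ h1

theorem gg_ne [CharZero K] (ε : Fin (m + 1) ≃ Fin k × Fin k) :
    ∃ a b, gg K k m a b ≠ 0 := by
  by_contra hcon
  push Not at hcon
  obtain ⟨U, hU⟩ := exists_cz_ne (K := K) ε
  have h1 := cz_span (K := K) ε
  have h2 : ∀ F ∈ Submodule.span K (Set.range fun γ : Equiv.Perm (Fin (4 * m + 3 + 1)) =>
        fun X : Fin (4 * m + 3 + 1) → Mt K k => trp γ X), ∀ X,
      F X = ∑ a : Fin (4 * m + 3 + 1) → Fin k, ∑ b : Fin (4 * m + 3 + 1) → Fin k,
        (∏ i, X i (a i) (b i)) * F (un K a b) := by
    intro F hF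
    induction hF using Submodule.span_induction with
    | mem F hF =>
      obtain ⟨γ, rfl⟩ := hF
      exact fun X => trp_expand γ X
    | zero => intro X; simp
    | add a b _ _ ha hb =>
      intro X
      rw [Pi.add_apply, ha X, hb X, ← Finset.sum_add_distrib]
      refine Finset.sum_congr rfl fun _ _ => ?_
      rw [← Finset.sum_add_distrib]
      refine Finset.sum_congr rfl fun _ _ => ?_
      rw [Pi.add_apply, mul_add]
    | smul c a _ ha =>
      intro X
      rw [Pi.smul_apply, ha X, smul_eq_mul, Finset.mul_sum]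
      refine Finset.sum_congr rfl fun _ _ => ?_
      rw [Finset.mul_sum]
      refine Finset.sum_congr rfl fun _ _ => ?_
      rw [Pi.smul_apply, smul_eq_mul]
      ring
  have h3 := h2 _ h1 (fun j => U ((tht m).symm j))
  apply hU
  have h4 : (fun p => U ((tht m).symm (tht m p))) = U := by
    funext p
    rw [Equiv.symm_apply_apply]
  rw [← h4, h3]
  refine Finset.sum_eq_zero fun a _ => Finset.sum_eq_zero fun b _ => ?_
  have := hcon a b
  unfold gg at this
  rw [this, mul_zero]

/-- restriction of a permutation to the complement of the image -/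
theorem sub_perm {n M : ℕ} (B : Fin M → Fin n) (β : Equiv.Perm (Fin n)) (hβ : ∀ j, β (B j) = B j) :
    ∀ x, β x ∉ image B univ ↔ x ∉ image B univ := by
  intro x
  rw [not_iff_not]
  simp only [mem_image, mem_univ, true_and]
  constructor
  · rintro ⟨j, hj⟩
    exact ⟨j, β.injective ((hβ j).trans hj)⟩
  · rintro ⟨j, rfl⟩
    exact ⟨j, (hβ j).symm⟩

/-- the words attached to the complement of the image -/
theorem exists_ws {n M : ℕ} (B : Fin M → Fin n) (hB : Function.Injective B)
    (β : Equiv.Perm (Fin n)) (hβ : ∀ j, β (B j) = B j) :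
    ∃ ws : List (List (Fin n)), (∑ j, ({B j} : Multiset (Fin n)) + (ws.flatten : Multiset (Fin n)) =
      univ.val) ∧ ∀ (K : Type) [Field K] (k : ℕ) (a b : Fin n → Fin k),
        (∏ i ∈ univ \ image B univ, if b i = a (β i) then (1 : K) else 0) =
          (ws.map fun v => (mon v (un K a b)).trace).prod := by
  classical
  obtain ⟨ws, h1, h2⟩ := trp_words (κ := Fin n)
    (Equiv.Perm.subtypePerm (p := fun x => x ∉ image B univ) β (sub_perm B β hβ))
    (fun i => [i.1])
  refine ⟨ws, ?_, ?_⟩
  · rw [h1]
    have h3 : ∑ j, ({B j} : Multiset (Fin n)) = ∑ x ∈ image B univ, {x} := by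
      rw [Finset.sum_image fun i _ j _ h => hB h]
    have h4 : ∑ i : {x // x ∉ image B univ}, (([i.1] : List (Fin n)) : Multiset (Fin n)) =
        ∑ x ∈ univ \ image B univ, ({x} : Multiset (Fin n)) := by
      rw [Finset.sum_subtype (univ \ image B univ) (p := fun x => x ∉ image B univ) (by simp)]
      rfl
    rw [h3, h4, add_comm, Finset.sum_sdiff (Finset.subset_univ _),
      Finset.sum_multiset_singleton]
  · intro K _ k a b
    rw [← h2 K k (un K a b)]
    have h5 : (fun i : {x // x ∉ image B univ} => mon [i.1] (un K a b)) =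
        un K (fun i => a i.1) (fun i => b i.1) := by
      funext i
      simp [mon, un]
    rw [h5, trp_un, Finset.prod_subtype (univ \ image B univ) (p := fun x => x ∉ image B univ)
      (by simp)]
    rfl

theorem ws_avoid {n M : ℕ} {B : Fin M → Fin n} {ws : List (List (Fin n))}
    (h : ∑ j, ({B j} : Multiset (Fin n)) + (ws.flatten : Multiset (Fin n)) = univ.val) :
    ∀ w ∈ ws, ∀ j, B j ∉ w := by
  intro w hw j hj
  have h1 : Multiset.count (B j) (univ.val : Multiset (Fin n)) = 1 :=
    Multiset.count_eq_one_of_mem univ.nodup (by simp)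
  rw [← h, Multiset.count_add] at h1
  have h2 : 1 ≤ Multiset.count (B j) (∑ j, ({B j} : Multiset (Fin n))) := by
    rw [Multiset.one_le_count_iff_mem, Multiset.mem_sum]
    exact ⟨j, mem_univ _, Multiset.mem_singleton_self _⟩
  have h3 : 1 ≤ Multiset.count (B j) (ws.flatten : Multiset (Fin n)) := by
    rw [Multiset.one_le_count_iff_mem, Multiset.mem_coe, List.mem_flatten]
    exact ⟨w, hw, hj⟩
  omega

/-- first form -/
theorem cor_i [CharZero K] (ε : Fin (m + 1) ≃ Fin k × Fin k) {n : ℕ}
    (B : Fin (4 * m + 3 + 1) → Fin n) (hB : Function.Injective B) (β : Equiv.Perm (Fin n))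
    (hβ : ∀ j, β (B j) = B j) :
    (fun a b p q => gg K k m (fun j => a (B j)) (fun j => b (B j)) *
      (∏ i ∈ univ \ image B univ, if b i = a (β i) then (1 : K) else 0) *
      (1 : Matrix (Fin k) (Fin k) K) p q) ∈ WW K k n := by
  obtain ⟨ws, h1, h2⟩ := exists_ws B hB β hβ
  have h3 := cz_mem (K := K) ε (κ := Fin n) (e := fun p => B (tht m p))
    (hB.comp (tht m).injective) ws (fun w hw p => ws_avoid h1 w hw _) (t := univ.val) (by
      rw [Equiv.sum_comp (tht m) (fun j => ({B j} : Multiset (Fin n)))]
      exact h1)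
  have h4 := ev_mem h3
  convert h4 using 1
  funext a b p q
  rw [Matrix.smul_apply, smul_eq_mul, h2 K k a b]
  rfl

theorem lift_list {n : ℕ} (l : List (Fin (n + 1))) (h : Fin.last n ∉ l) :
    ∃ l' : List (Fin n), l = l'.map Fin.castSucc := by
  induction l with
  | nil => exact ⟨[], rfl⟩
  | cons x l ih =>
    rw [List.mem_cons, not_or] at h
    obtain ⟨l', rfl⟩ := ih h.2
    obtain ⟨y, rfl⟩ := Fin.exists_castSucc_eq.2 (Ne.symm h.1)
    exact ⟨y :: l', rfl⟩

theorem lift_lists {n : ℕ} (L : List (List (Fin (n + 1)))) (h : Fin.last n ∉ L.flatten) :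
    ∃ L' : List (List (Fin n)), L = L'.map (List.map Fin.castSucc) := by
  induction L with
  | nil => exact ⟨[], rfl⟩
  | cons x L ih =>
    rw [List.flatten_cons, List.mem_append, not_or] at h
    obtain ⟨L', rfl⟩ := ih h.2
    obtain ⟨y, rfl⟩ := lift_list x h.1
    exact ⟨y :: L', rfl⟩

theorem mon_lift {n : ℕ} (l : List (Fin n)) (X : Fin (n + 1) → Mt K k) :
    mon (l.map Fin.castSucc) X = mon l (fun i => X i.castSucc) := by
  simp [mon, List.map_map, Function.comp_def]

theorem un_snoc {n : ℕ} (a b : Fin n → Fin k) (p q : Fin k) :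
    (fun i : Fin n => un K (Fin.snoc a q : Fin (n + 1) → Fin k) (Fin.snoc b p) i.castSucc) =
      un K a b := by
  funext i
  simp [un]

/-- second form -/
theorem cor_ii [CharZero K] (ε : Fin (m + 1) ≃ Fin k × Fin k) {n : ℕ}
    (B : Fin (4 * m + 3 + 1) → Fin n) (hB : Function.Injective B) (β : Equiv.Perm (Fin (n + 1)))
    (hβ : ∀ j, β (B j).castSucc = (B j).castSucc) :
    (fun a b p q => gg K k m (fun j => a (B j)) (fun j => b (B j)) *
      (∏ i ∈ univ \ image (fun j => (B j).castSucc) univ,
        if (Fin.snoc b p : Fin (n + 1) → Fin k) i = (Fin.snoc a q : Fin (n + 1) → Fin k) (β i)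
          then (1 : K) else 0)) ∈ WW K k n := by
  obtain ⟨ws, h1, h2⟩ := exists_ws (fun j => (B j).castSucc)
    ((Fin.castSucc_injective n).comp hB) β hβ
  -- the word with the last letter
  have hu : (univ.val : Multiset (Fin (n + 1))) =
      {Fin.last n} + (univ.val : Multiset (Fin n)).map Fin.castSucc := by
    rw [Fin.univ_castSuccEmb]
    rfl
  have h3 : Multiset.count (Fin.last n) (ws.flatten : Multiset (Fin (n + 1))) = 1 := by
    have h4 : Multiset.count (Fin.last n) (univ.val : Multiset (Fin (n + 1))) = 1 :=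
      Multiset.count_eq_one_of_mem univ.nodup (by simp)
    rw [← h1, Multiset.count_add] at h4
    have h5 : Multiset.count (Fin.last n)
        (∑ j, ({(B j).castSucc} : Multiset (Fin (n + 1)))) = 0 := by
      rw [Multiset.count_eq_zero, Multiset.mem_sum]
      rintro ⟨j, _, hj⟩
      rw [Multiset.mem_singleton] at hj
      exact (Fin.castSucc_lt_last (B j)).ne' hj
    omega
  have h4 : Fin.last n ∈ ws.flatten := by
    rw [← Multiset.mem_coe, ← Multiset.one_le_count_iff_mem]
    exact h3.ge
  obtain ⟨w, hw, hlw⟩ := List.mem_flatten.1 h4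
  obtain ⟨ws1, ws2, rfl⟩ := List.append_of_mem hw
  obtain ⟨l1, l2, rfl⟩ := List.append_of_mem hlw
  have h5 : (((ws1 ++ (l1 ++ Fin.last n :: l2) :: ws2).flatten : List (Fin (n + 1))) :
      Multiset (Fin (n + 1))) = {Fin.last n} + (((ws1 ++ ws2).flatten : List (Fin (n + 1))) :
        Multiset (Fin (n + 1))) + ((l2 ++ l1 : List (Fin (n + 1))) : Multiset (Fin (n + 1))) := by
    rw [List.flatten_append, List.flatten_cons, List.flatten_append]
    simp only [← Multiset.coe_add, ← Multiset.cons_coe, ← Multiset.singleton_add]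
    abel
  rw [h5, Multiset.count_add, Multiset.count_add, Multiset.count_singleton_self] at h3
  have h6 : Fin.last n ∉ (ws1 ++ ws2).flatten := by
    rw [← Multiset.mem_coe, ← Multiset.count_eq_zero]
    omega
  have h7 : Fin.last n ∉ l2 ++ l1 := by
    rw [← Multiset.mem_coe, ← Multiset.count_eq_zero]
    omega
  obtain ⟨L, hL⟩ := lift_lists _ h6
  obtain ⟨l, hl⟩ := lift_list _ h7
  -- the content
  have h8 : ∑ j, ({B j} : Multiset (Fin n)) + (L.flatten : Multiset (Fin n)) +
      (l : Multiset (Fin n)) = univ.val := by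
    apply Multiset.map_injective (Fin.castSucc_injective n)
    have h9 : (∑ j, ({B j} : Multiset (Fin n))).map Fin.castSucc =
        ∑ j, ({(B j).castSucc} : Multiset (Fin (n + 1))) := by
      have h9' : ∀ s : Finset (Fin (4 * m + 3 + 1)),
          (∑ j ∈ s, ({B j} : Multiset (Fin n))).map Fin.castSucc =
            ∑ j ∈ s, ({(B j).castSucc} : Multiset (Fin (n + 1))) := by
        intro s
        induction s using Finset.induction_on with
        | empty => rfl
        | insert x s hx ih =>
          rw [Finset.sum_insert hx, Finset.sum_insert hx, Multiset.map_add, ih,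
            Multiset.map_singleton]
      exact h9' univ
    rw [Multiset.map_add, Multiset.map_add, h9, Multiset.map_coe, Multiset.map_coe, ← hl,
      List.map_flatten, ← hL]
    have h10 := h1
    rw [h5, hu] at h10
    have h11 : {Fin.last n} + (∑ j, ({(B j).castSucc} : Multiset (Fin (n + 1))) +
        (((ws1 ++ ws2).flatten : List (Fin (n + 1))) : Multiset (Fin (n + 1))) +
        ((l2 ++ l1 : List (Fin (n + 1))) : Multiset (Fin (n + 1)))) =
        {Fin.last n} + (univ.val : Multiset (Fin n)).map Fin.castSucc := by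
      rw [← h10]
      abel
    exact add_left_cancel h11
  have h12 := cz_mem (K := K) ε (κ := Fin n) (e := fun p => B (tht m p))
    (hB.comp (tht m).injective) L (fun v hv p hp => by
      have h13 : List.map Fin.castSucc v ∈ ws1 ++ ws2 := by
        rw [hL]
        exact List.mem_map_of_mem hv
      have h14 : List.map Fin.castSucc v ∈ ws1 ++ (l1 ++ Fin.last n :: l2) :: ws2 := by
        rw [List.mem_append] at h13 ⊢
        rcases h13 with h | h
        · exact Or.inl h
        · exact Or.inr (List.mem_cons_of_mem _ h)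
      exact ws_avoid h1 _ h14 (tht m p) (List.mem_map_of_mem hp))
    (t := ∑ j, ({B j} : Multiset (Fin n)) + (L.flatten : Multiset (Fin n))) (by
      rw [Equiv.sum_comp (tht m) (fun j => ({B j} : Multiset (Fin n)))])
  have h15 := Pol.mul h12 (mon_mem (K := K) (k := k) (l := l) rfl)
  rw [h8] at h15
  have h16 := ev_mem h15
  convert h16 using 1
  funext a b p q
  rw [h2 K k (Fin.snoc a q) (Fin.snoc b p)]
  have h17 : ((ws1 ++ (l1 ++ Fin.last n :: l2) :: ws2).map fun v =>
      (mon v (un K (Fin.snoc a q : Fin (n + 1) → Fin k) (Fin.snoc b p))).trace).prod =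
      (L.map fun v => (mon v (un K a b)).trace).prod * mon l (un K a b) p q := by
    rw [List.map_append, List.prod_append, List.map_cons, List.prod_cons]
    have h18 : (mon (l1 ++ Fin.last n :: l2)
        (un K (Fin.snoc a q : Fin (n + 1) → Fin k) (Fin.snoc b p))).trace =
        mon l (un K a b) p q := by
      have h19 : mon (l1 ++ Fin.last n :: l2)
          (un K (Fin.snoc a q : Fin (n + 1) → Fin k) (Fin.snoc b p)) =
          mon l1 (un K (Fin.snoc a q : Fin (n + 1) → Fin k) (Fin.snoc b p)) *
          (Matrix.single q p 1 *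
            mon l2 (un K (Fin.snoc a q : Fin (n + 1) → Fin k) (Fin.snoc b p))) := by
        rw [mon_append]
        congr 1
        simp [mon, un]
      rw [h19, Matrix.trace_mul_comm, Matrix.mul_assoc, ← mon_append, Matrix.trace_single_mul,
        one_smul, hl, mon_lift, un_snoc]
    have h20 : (List.map (fun v => (mon v (un K (Fin.snoc a q : Fin (n + 1) → Fin k)
        (Fin.snoc b p))).trace) ws1).prod * (List.map (fun v => (mon v (un K
          (Fin.snoc a q : Fin (n + 1) → Fin k) (Fin.snoc b p))).trace) ws2).prod =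
        (L.map fun v => (mon v (un K a b)).trace).prod := by
      rw [← List.prod_append, ← List.map_append, hL, List.map_map]
      congr 1
      refine List.map_congr_left fun v _ => ?_
      rw [Function.comp_apply, mon_lift, un_snoc]
    rw [h18, ← h20]
    ring
  rw [h17, Matrix.mul_apply, Finset.sum_eq_single p]
  · rw [Matrix.smul_apply, Matrix.one_apply_eq, smul_eq_mul, mul_one, ← mul_assoc]
    rfl
  · intro c _ hc
    rw [Matrix.smul_apply, Matrix.one_apply_ne (Ne.symm hc), smul_zero, zero_mul]
  · intro h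
    exact absurd (Finset.mem_univ _) h

end Pool.Agent.Y117.CC
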